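import Pool.Agent.ClanGor.Final

/-!
# MP_fae1d7_ag: Gorenstein orbit closures for `(p,2)`-clans

For every `p ≥ 2` and every `(p,2)`-clan `γ`, the closure `Y_γ` of the `GL_p × GL_2`-orbit `Q_γ` in
the variety of complete flags of `ℂ^{p+2}` is Gorenstein if and only if `γ` avoids the six patterns
`1++-1`, `1-++1`, `1++221`, `122++1`, `1+212`, `121+2`.

The definitions are in `Pool/Agent/ClanGor/Defs.lean`; the fact that the `n!` charts used there
cover the flag variety is `ClanGor.Cover.chartCover`.
-/

namespace Pool.Agent.Results.MP_fae1d7_ag.GorensteinClans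

open ClanGor

/-- Full answer (yes) to Q1: for every `p ≥ 2` and every `(p,2)`-clan `c`, the orbit closure is
Gorenstein if and only if `c` avoids all six patterns. -/
theorem result (p : ℕ) (hp : 2 ≤ p) (c : Fin (p + 2) → Letter) (hc : IsClan p 2 c) :
    GorensteinClosure p c ↔ AvoidsAll c :=
  ClanGor.main_theorem p hp c hc

end Pool.Agent.Results.MP_fae1d7_ag.GorensteinClans
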